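import Mathlib

/-!
# The monoid `⟨b, c ∣ b b c c = 1⟩`

Right invertible elements form a free monoid on `b` and `B = b b c`; multiplication of natural
numbers (with `n` represented by `b ^ n`) is definable by a finite system of equations.
-/

set_option autoImplicit false

namespace Pool.Agent.OneRel

/-- The defining relation. -/
def relw : FreeMonoid (Fin 2) → FreeMonoid (Fin 2) → Prop :=
  fun x y => x = FreeMonoid.ofList [0, 0, 1, 1] ∧ y = 1

/-- The congruence. -/
def Mcon : Con (FreeMonoid (Fin 2)) := conGen relw

/-- The monoid `⟨b, c ∣ b b c c = 1⟩`. -/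
abbrev M := Mcon.Quotient

/-- The quotient map. -/
def π : FreeMonoid (Fin 2) →* M := Mcon.mk'

/-- generator -/
def b : M := π (FreeMonoid.of 0)
/-- generator -/
def c : M := π (FreeMonoid.of 1)
/-- the element `b b c` -/
def B : M := b * b * c
/-- the element `b c c` -/
def C : M := b * c * c

theorem rel : b * b * c * c = 1 := by
  have h : Mcon (FreeMonoid.ofList [0, 0, 1, 1]) 1 := ConGen.Rel.of _ _ ⟨rfl, rfl⟩
  have h2 := Quotient.sound (s := Mcon.toSetoid) h
  exact h2

theorem b_C : b * C = 1 := by
  rw [← rel]
  simp only [C, mul_assoc]

theorem B_c : B * c = 1 := rel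

theorem BB_cc : B * B * (c * c) = 1 := by
  have : B * B * (c * c) = B * (B * c) * c := by simp only [mul_assoc]
  rw [this, B_c, mul_one, B_c]

theorem bb_cc : b * b * (c * c) = 1 := by
  rw [← rel]
  simp only [mul_assoc]

/-! ## The stack action -/

/-- pushing the letter `c` -/
def pushc : List Bool → List Bool
  | true :: false :: false :: s => s
  | s => true :: s

/-- pushing a letter -/
def push (a : Fin 2) (s : List Bool) : List Bool :=
  if a = 0 then false :: s else pushc s

/-- reading a word -/
def run (w : List (Fin 2)) (s : List Bool) : List Bool := w.foldl (fun s a => push a s) s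

theorem run_append (w w' : List (Fin 2)) (s : List Bool) :
    run (w ++ w') s = run w' (run w s) := by
  simp [run, List.foldl_append]

theorem run_rel (s : List Bool) : run [0, 0, 1, 1] s = s := by
  simp [run, push, pushc]

/-- words acting in the same way -/
def runCon : Con (FreeMonoid (Fin 2)) where
  r x y := ∀ s, run x.toList s = run y.toList s
  iseqv := ⟨fun _ _ => rfl, fun h s => (h s).symm, fun h h' s => (h s).trans (h' s)⟩
  mul' {w x y z} h h' s := by
    rw [FreeMonoid.toList_mul, FreeMonoid.toList_mul, run_append, run_append, h, h']

theorem Mcon_le : Mcon ≤ runCon := by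
  rw [Mcon, Con.conGen_le]
  rintro x y ⟨rfl, rfl⟩ s
  exact run_rel s

theorem run_eq {x y : FreeMonoid (Fin 2)} (h : π x = π y) (s : List Bool) :
    run x.toList s = run y.toList s :=
  Mcon_le ((Con.eq _).mp h) s

/-- The element of the monoid represented by a stack. -/
def dec : List Bool → M
  | [] => 1
  | false :: s => dec s * b
  | true :: s => dec s * c

theorem dec_push (a : Fin 2) (s : List Bool) : dec (push a s) = dec s * π (FreeMonoid.of a) := by
  unfold push
  split_ifs with h
  · subst h
    rfl
  · have ha : a = 1 := by omega
    subst ha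
    change dec (pushc s) = dec s * c
    unfold pushc
    split
    · rename_i s'
      simp only [dec]
      have := rel
      calc dec s' = dec s' * (b * b * c * c) := by rw [rel, mul_one]
        _ = _ := by simp only [mul_assoc]
    · rfl

theorem dec_run (w : List (Fin 2)) (s : List Bool) :
    dec (run w s) = dec s * π (FreeMonoid.ofList w) := by
  induction w generalizing s with
  | nil =>
    change dec s = dec s * π 1
    rw [map_one, mul_one]
  | cons a w ih =>
    change dec (run w (push a s)) = _
    rw [ih, dec_push, mul_assoc, ← map_mul]
    rfl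

/-- Encoding of a word in `b`, `B` (top of the stack first). -/
def enc : List Bool → List Bool
  | [] => []
  | false :: w => false :: enc w
  | true :: w => true :: false :: false :: enc w

theorem enc_append (w w' : List Bool) : enc (w ++ w') = enc w ++ enc w' := by
  induction w with
  | nil => rfl
  | cons a w ih => cases a <;> simp [enc, ih]

theorem enc_inj {w w' : List Bool} (h : enc w = enc w') : w = w' := by
  induction w generalizing w' with
  | nil =>
    cases w' with
    | nil => rfl
    | cons a w' => cases a <;> simp [enc] at h
  | cons a w ih =>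
    cases w' with
    | nil => cases a <;> simp [enc] at h
    | cons a' w' =>
      cases a <;> cases a' <;> simp [enc] at h
      · rw [ih h]
      · rw [ih h]

theorem good_push {a : Fin 2} {s : List Bool} (h : ∃ w, push a s = enc w) :
    ∃ w, s = enc w := by
  obtain ⟨w, hw⟩ := h
  unfold push at hw
  split_ifs at hw with ha
  · cases w with
    | nil => simp [enc] at hw
    | cons a w =>
      cases a
      · simp only [enc, List.cons.injEq, true_and] at hw
        exact ⟨w, hw⟩
      · simp [enc] at hw
  · unfold pushc at hw
    split at hw
    · exact ⟨true :: w, by rw [hw]; rfl⟩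
    · cases w with
      | nil => simp [enc] at hw
      | cons a w =>
        cases a
        · simp [enc] at hw
        · simp only [enc, List.cons.injEq, true_and] at hw
          exact ⟨false :: false :: w, hw⟩

theorem good_of_run {y : List (Fin 2)} {s : List Bool} (h : run y s = []) :
    ∃ w, s = enc w := by
  induction y generalizing s with
  | nil => exact ⟨[], h⟩
  | cons a y ih => exact good_push (ih h)

/-- The embedding of the free monoid. -/
def wd : FreeMonoid Bool →* FreeMonoid (Fin 2) :=
  FreeMonoid.lift fun t => if t then FreeMonoid.ofList [0, 0, 1] else FreeMonoid.of 0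

/-- The homomorphism from the free monoid on two letters onto the right invertible elements. -/
def ψ : FreeMonoid Bool →* M := π.comp wd

theorem ψ_false : ψ (FreeMonoid.of false) = b := by
  simp [ψ, wd, b]

theorem ψ_true : ψ (FreeMonoid.of true) = B := by
  simp [ψ, wd, B, b, c, ← map_mul]
  rfl

theorem run_wd (w : FreeMonoid Bool) (s : List Bool) :
    run (wd w).toList s = enc w.toList.reverse ++ s := by
  induction w using FreeMonoid.inductionOn' generalizing s with
  | one => simp [run, enc]
  | of_mul t w ih =>
    rw [map_mul, FreeMonoid.toList_mul, run_append, ih, FreeMonoid.toList_mul,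
      List.reverse_append, enc_append, List.append_assoc]
    congr 1
    cases t <;> simp [wd, run, push, pushc, enc]

theorem ψ_inj : Function.Injective ψ := by
  intro w w' h
  have h1 := run_eq (x := wd w) (y := wd w') h []
  rw [run_wd, run_wd, List.append_nil, List.append_nil] at h1
  have h2 := enc_inj h1
  exact List.reverse_injective h2

theorem dec_enc (w : List Bool) : dec (enc w) = ψ (FreeMonoid.ofList w.reverse) := by
  induction w with
  | nil => simp [enc, dec]
  | cons a w ih =>
    cases a
    · simp only [enc, dec, List.reverse_cons, FreeMonoid.ofList_append, map_mul, ih]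
      rw [← ψ_false]
      rfl
    · simp only [enc, dec, List.reverse_cons, FreeMonoid.ofList_append, map_mul, ih, mul_assoc]
      have : ψ (FreeMonoid.ofList [true]) = B := ψ_true
      rw [this, B, mul_assoc]

theorem exists_ψ {x y : M} (h : x * y = 1) : ∃ w, x = ψ w := by
  obtain ⟨x, rfl⟩ := Con.mk'_surjective (c := Mcon) x
  obtain ⟨y, rfl⟩ := Con.mk'_surjective (c := Mcon) y
  have h1 : π (x * y) = π 1 := by
    rw [map_mul, map_one]
    exact h
  have h2 := run_eq h1 []
  rw [FreeMonoid.toList_mul, run_append] at h2
  obtain ⟨w, hw⟩ := good_of_run (s := run x.toList []) (y := y.toList) h2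
  have h3 := dec_run x.toList []
  rw [hw, dec_enc] at h3
  refine ⟨FreeMonoid.ofList w.reverse, ?_⟩
  rw [h3]
  simp only [dec, one_mul]
  rfl

theorem ψ_rinv (w : FreeMonoid Bool) : ∃ y, ψ w * y = 1 := by
  induction w using FreeMonoid.inductionOn' with
  | one => exact ⟨1, by simp⟩
  | of_mul t w ih =>
    obtain ⟨y, hy⟩ := ih
    rw [map_mul]
    cases t
    · refine ⟨y * C, ?_⟩
      rw [ψ_false]
      calc b * ψ w * (y * C) = b * (ψ w * y) * C := by simp only [mul_assoc]
        _ = 1 := by rw [hy, mul_one, b_C]
    · refine ⟨y * c, ?_⟩
      rw [ψ_true]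
      calc B * ψ w * (y * c) = B * (ψ w * y) * c := by simp only [mul_assoc]
        _ = 1 := by rw [hy, mul_one, B_c]

/-! ## Commutation in the free monoid -/

theorem comm_list (t : Bool) (r : ℕ) (n : ℕ) : ∀ x : List Bool, x.length ≤ n →
    x ++ (List.replicate r (!t) ++ [t]) = (List.replicate r (!t) ++ [t]) ++ x →
    ∃ k : ℕ, x = (List.replicate k (List.replicate r (!t) ++ [t])).flatten := by
  induction n with
  | zero =>
    intro x hx _
    exact ⟨0, by simpa using hx⟩
  | succ n ih =>
    intro x hx h
    rcases List.append_eq_append_iff.mp h with ⟨as, h1, h2⟩ | ⟨bs, h1, h2⟩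
    · rcases List.eq_nil_or_concat' x with rfl | ⟨x', s, rfl⟩
      · exact ⟨0, by simp⟩
      · rcases List.eq_nil_or_concat' as with rfl | ⟨as', s', rfl⟩
        · refine ⟨1, ?_⟩
          rw [h2]
          simp
        · exfalso
          rw [← List.append_assoc] at h1 h2
          have h3 := List.append_inj' h2 rfl
          have h4 := List.append_inj' h1 rfl
          have h5 : s = t := by
            have := h3.2
            simpa using this.symm
          have h6 : s ∈ List.replicate r (!t) := by
            rw [h4.1]
            simp
          have h7 := List.eq_of_mem_replicate h6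
          rw [h5] at h7
          cases t <;> simp at h7
    · have hl : bs.length ≤ n := by
        have := congrArg List.length h1
        simp at this
        omega
      have h3 : bs ++ (List.replicate r (!t) ++ [t]) = (List.replicate r (!t) ++ [t]) ++ bs := by
        rw [← h2, h1]
      obtain ⟨k, hk⟩ := ih bs hl h3
      refine ⟨k + 1, ?_⟩
      rw [List.replicate_succ, List.flatten_cons, ← hk, h1]

theorem comm_free (t : Bool) (r : ℕ) (x : FreeMonoid Bool)
    (h : x * (FreeMonoid.of (!t) ^ r * FreeMonoid.of t)
      = (FreeMonoid.of (!t) ^ r * FreeMonoid.of t) * x) :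
    ∃ k : ℕ, x = (FreeMonoid.of (!t) ^ r * FreeMonoid.of t) ^ k := by
  have e : ∀ (a : FreeMonoid Bool) (k : ℕ), (a ^ k).toList = (List.replicate k a.toList).flatten := by
    intro a k
    induction k with
    | zero => simp
    | succ k ih => rw [pow_succ', FreeMonoid.toList_mul, ih, List.replicate_succ, List.flatten_cons]
  have e2 : (FreeMonoid.of (!t) ^ r * FreeMonoid.of t).toList = List.replicate r (!t) ++ [t] := by
    rw [FreeMonoid.toList_mul, e]
    congr 1
    simp only [FreeMonoid.toList_of]
    induction r with
    | zero => simp
    | succ r ih => simp [List.replicate_succ]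
  have h1 := congrArg FreeMonoid.toList h
  rw [FreeMonoid.toList_mul x, FreeMonoid.toList_mul _ x, e2] at h1
  obtain ⟨k, hk⟩ := comm_list t r _ x.toList le_rfl h1
  refine ⟨k, ?_⟩
  apply FreeMonoid.toList.injective
  rw [hk, e, e2]

end Pool.Agent.OneRel
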