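import Pool.Agent.OneRel.Monoid

/-!
# Multiplication is definable in `⟨b, c ∣ b b c c = 1⟩`
-/

set_option autoImplicit false

namespace Pool.Agent.OneRel

/-! ## Two homomorphisms -/

/-- homomorphism onto the infinite dihedral group -/
def χ₁ : M →* DihedralGroup 0 :=
  Con.lift Mcon (FreeMonoid.lift fun a : Fin 2 =>
    if a = 0 then DihedralGroup.sr 0 else DihedralGroup.sr 1) (by
    rw [Mcon, Con.conGen_le]
    rintro x y ⟨rfl, rfl⟩
    rw [Con.ker_rel]
    simp [FreeMonoid.lift_apply])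

/-- homomorphism onto the integers -/
def χ₂ : M →* Multiplicative ℤ :=
  Con.lift Mcon (FreeMonoid.lift fun a : Fin 2 =>
    if a = 0 then Multiplicative.ofAdd 1 else Multiplicative.ofAdd (-1)) (by
    rw [Mcon, Con.conGen_le]
    rintro x y ⟨rfl, rfl⟩
    rw [Con.ker_rel]
    simp [FreeMonoid.lift_apply])

theorem χ₁_b : χ₁ b = DihedralGroup.sr 0 := by
  simp [χ₁, b, π]

theorem χ₁_c : χ₁ c = DihedralGroup.sr 1 := by
  simp [χ₁, c, π]

theorem χ₁_B : χ₁ B = DihedralGroup.sr 1 := by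
  simp [B, χ₁_b, χ₁_c]

theorem χ₂_b : χ₂ b = Multiplicative.ofAdd 1 := by
  simp [χ₂, b, π]

theorem χ₂_c : χ₂ c = Multiplicative.ofAdd (-1) := by
  simp [χ₂, c, π]

theorem χ₂_B : χ₂ B = Multiplicative.ofAdd 1 := by
  rw [B, map_mul, map_mul, χ₂_b, χ₂_c, ← ofAdd_add, ← ofAdd_add]
  rfl

theorem b_pow_inj {m n : ℕ} (h : b ^ m = b ^ n) : m = n := by
  have := congrArg χ₂ h
  rw [map_pow, map_pow, χ₂_b, ← ofAdd_nsmul, ← ofAdd_nsmul] at this
  have := Multiplicative.ofAdd.injective this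
  simpa using this

/-! ## The relation `E` -/

/-- `E x x'`: there are `T`, `y` with `x T y = 1` and `T x' y = 1`. -/
def E (x x' : M) : Prop := ∃ T y : M, x * T * y = 1 ∧ T * x' * y = 1

theorem E.refl {x : M} (h : ∃ y, x * y = 1) : E x x := by
  obtain ⟨y, hy⟩ := h
  exact ⟨1, y, by rw [mul_one, hy], by rw [one_mul, hy]⟩

theorem E.trans {x y z : M} (h : E x y) (h' : E y z) : E x z := by
  obtain ⟨T, s, h1, h2⟩ := h
  obtain ⟨T', s', h3, h4⟩ := h'
  refine ⟨T * y * T', s' * s, ?_, ?_⟩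
  · calc x * (T * y * T') * (s' * s) = x * T * (y * T' * s') * s := by simp only [mul_assoc]
      _ = 1 := by rw [h3, mul_one, h1]
  · calc T * y * T' * z * (s' * s) = T * y * (T' * z * s') * s := by simp only [mul_assoc]
      _ = 1 := by rw [h4, mul_one, h2]

theorem E.flip {u v u' v' : M} (hu : u * u' = 1) (hv : v * v' = 1) :
    E (u * (b * b) * v) (u * (B * B) * v) ∧ E (u * (B * B) * v) (u * (b * b) * v) := by
  have e1 : u * (b * b) * v * (v' * (c * c) * u') = 1 := by
    calc u * (b * b) * v * (v' * (c * c) * u')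
        = u * (b * b * ((v * v') * (c * c))) * u' := by simp only [mul_assoc]
      _ = 1 := by rw [hv, one_mul, bb_cc, mul_one, hu]
  have e2 : u * (B * B) * v * (v' * (c * c) * u') = 1 := by
    calc u * (B * B) * v * (v' * (c * c) * u')
        = u * (B * B * ((v * v') * (c * c))) * u' := by simp only [mul_assoc]
      _ = 1 := by rw [hv, one_mul, BB_cc, mul_one, hu]
  exact ⟨⟨1, v' * (c * c) * u', by rw [mul_one, e1], by rw [one_mul, e2]⟩,
    ⟨1, v' * (c * c) * u', by rw [mul_one, e2], by rw [one_mul, e1]⟩⟩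

/-- The congruence of words that are related in every context. -/
def P : Con (FreeMonoid Bool) where
  r w w' := ∀ u v, E (ψ (u * w * v)) (ψ (u * w' * v)) ∧ E (ψ (u * w' * v)) (ψ (u * w * v))
  iseqv := ⟨fun w u v => ⟨E.refl (ψ_rinv _), E.refl (ψ_rinv _)⟩,
    fun h u v => ⟨(h u v).2, (h u v).1⟩,
    fun h h' u v => ⟨(h u v).1.trans (h' u v).1, (h' u v).2.trans (h u v).2⟩⟩
  mul' {w x y z} h h' u v := by
    have h1 := h u (y * v)
    have h2 := h' (u * x) v
    have e1 : u * w * (y * v) = u * (w * y) * v := by simp only [mul_assoc]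
    have e2 : u * x * (y * v) = u * (x * y) * v := by simp only [mul_assoc]
    have e3 : u * x * y * v = u * (x * y) * v := by simp only [mul_assoc]
    have e4 : u * x * z * v = u * (x * z) * v := by simp only [mul_assoc]
    rw [e1, e2] at h1
    rw [e3, e4] at h2
    exact ⟨h1.1.trans h2.1, h2.2.trans h1.2⟩

theorem P_flip : P (FreeMonoid.of false * FreeMonoid.of false)
    (FreeMonoid.of true * FreeMonoid.of true) := by
  intro u v
  obtain ⟨u', hu⟩ := ψ_rinv u
  obtain ⟨v', hv⟩ := ψ_rinv v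
  simp only [map_mul, ψ_false, ψ_true]
  exact E.flip hu hv

theorem pow_identity {Q : Type*} [Monoid Q] (x y : Q) (h : x * x = y * y) (k m : ℕ) :
    (x ^ m * x ^ m * x * y) ^ k = (x * y) ^ k * x ^ (k * m) * x ^ (k * m) := by
  have h1 : Commute (x * x) (x * y) := by
    show x * x * (x * y) = x * y * (x * x)
    calc x * x * (x * y) = x * (x * x) * y := by simp only [mul_assoc]
      _ = x * (y * y) * y := by rw [h]
      _ = x * y * (y * y) := by simp only [mul_assoc]
      _ = x * y * (x * x) := by rw [h]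
  have e1 : x ^ m * x ^ m * x * y = (x * x) ^ m * (x * y) := by
    rw [mul_pow_of_sq_aux, mul_assoc]
  rw [e1, (h1.pow_left m).mul_pow, ← pow_mul, ((h1.pow_left (m * k)).pow_right k).eq, mul_assoc,
    mul_comm k m]
  congr 1
  exact (Commute.refl x).mul_pow _
where
  mul_pow_of_sq_aux : x ^ m * x ^ m * x * y = (x * x) ^ m * x * y := by
    rw [(Commute.refl x).mul_pow]

/-- the basic relation -/
def R (r u v : M) : Prop :=
  ∃ x T y : M, x * (u * u * b * B) = (u * u * b * B) * x ∧ x * T * y = 1 ∧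
    T * r * v * v * y = 1

theorem R_complete (k m : ℕ) : R ((b * B) ^ k) (b ^ m) (b ^ (k * m)) := by
  have h : P ((FreeMonoid.of false ^ m * FreeMonoid.of false ^ m * FreeMonoid.of false *
      FreeMonoid.of true) ^ k) ((FreeMonoid.of false * FreeMonoid.of true) ^ k *
      FreeMonoid.of false ^ (k * m) * FreeMonoid.of false ^ (k * m)) := by
    have h1 : ((FreeMonoid.of false : FreeMonoid Bool) : P.Quotient) * (FreeMonoid.of false : FreeMonoid Bool)
        = (FreeMonoid.of true : FreeMonoid Bool) * (FreeMonoid.of true : FreeMonoid Bool) := by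
      rw [← Con.coe_mul, ← Con.coe_mul]
      exact (Con.eq P).mpr P_flip
    have h2 := pow_identity _ _ h1 k m
    rw [← Con.eq]
    exact h2
  have h1 := (h 1 1).1
  simp only [one_mul, mul_one, map_mul, map_pow, ψ_false, ψ_true] at h1
  obtain ⟨T, y, h2, h3⟩ := h1
  refine ⟨(b ^ m * b ^ m * b * B) ^ k, T, y, ?_, h2, ?_⟩
  · exact (Commute.refl (b ^ m * b ^ m * b * B)).pow_left k
  · rw [← h3]
    simp only [mul_assoc]

theorem R_sound {k m l : ℕ} (h : R ((b * B) ^ k) (b ^ m) (b ^ l)) : l = k * m := by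
  obtain ⟨x, T, y, h1, h2, h3⟩ := h
  obtain ⟨w, rfl⟩ := exists_ψ (x := x) (y := T * y) (by rw [← mul_assoc, h2])
  -- `w` is a power of `g`
  have hg : b ^ m * b ^ m * b * B = ψ (FreeMonoid.of false ^ (m + m + 1) * FreeMonoid.of true) := by
    rw [map_mul, map_pow, ψ_false, ψ_true, pow_add, pow_add, pow_one]
  rw [hg, ← map_mul, ← map_mul] at h1
  obtain ⟨k1, hk1⟩ := comm_free true (m + m + 1) w (ψ_inj h1)
  have hw : ψ w = (b ^ m * b ^ m * b * B) ^ k1 := by
    rw [hk1, map_pow, hg]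
    rfl
  rw [hw] at h2
  -- images in the dihedral group
  have e2 := congrArg χ₁ h2
  have e3 := congrArg χ₁ h3
  have f2 := congrArg χ₂ h2
  have f3 := congrArg χ₂ h3
  simp only [map_mul, map_pow, map_one, χ₁_b, χ₁_B, χ₂_b, χ₂_B] at e2 e3 f2 f3
  have sq : ∀ n : ℕ, (DihedralGroup.sr 0 : DihedralGroup 0) ^ n * DihedralGroup.sr 0 ^ n = 1 := by
    intro n
    rw [← (Commute.refl _).mul_pow]
    simp
  have e4 : (DihedralGroup.sr 0 : DihedralGroup 0) * DihedralGroup.sr 1 = DihedralGroup.r 1 := by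
    simp
  have key : k1 = k := by
    rw [sq, one_mul, e4] at e2
    rw [mul_assoc (χ₁ T * _), sq, mul_one, e4] at e3
    have e5 : (DihedralGroup.r 1 : DihedralGroup 0) ^ k1 * χ₁ T
        = χ₁ T * (DihedralGroup.r 1 : DihedralGroup 0) ^ k := by
      have := e2.trans e3.symm
      exact mul_right_cancel this
    rw [DihedralGroup.r_one_pow, DihedralGroup.r_one_pow] at e5
    generalize χ₁ T = τ at e5
    rcases τ with t | t
    · rw [DihedralGroup.r_mul_r, DihedralGroup.r_mul_r] at e5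
      have h6 := DihedralGroup.r.inj e5
      rw [add_comm] at h6
      have h7 := add_left_cancel h6
      have h8 : ((k1 : ℤ)) = (k : ℤ) := h7
      exact_mod_cast h8
    · rw [DihedralGroup.r_mul_sr, DihedralGroup.sr_mul_r] at e5
      have h6 := DihedralGroup.sr.inj e5
      rw [sub_eq_add_neg] at h6
      have h7 := add_left_cancel h6
      have h8 : (-(k1 : ℤ)) = (k : ℤ) := h7
      omega
  subst key
  have f4 : (Multiplicative.ofAdd (1 : ℤ) ^ m * Multiplicative.ofAdd (1 : ℤ) ^ m *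
      Multiplicative.ofAdd (1 : ℤ) * Multiplicative.ofAdd (1 : ℤ)) ^ k1 =
      (Multiplicative.ofAdd (1 : ℤ) * Multiplicative.ofAdd (1 : ℤ)) ^ k1 *
        Multiplicative.ofAdd (1 : ℤ) ^ l * Multiplicative.ofAdd (1 : ℤ) ^ l := by
    have h5 := f2.trans f3.symm
    have h6 := mul_right_cancel h5
    rw [mul_comm (χ₂ T)] at *
    apply mul_right_cancel (b := χ₂ T)
    rw [h6]
    ac_rfl
  have f5 := congrArg Multiplicative.toAdd f4
  simp only [toAdd_mul, toAdd_pow, toAdd_ofAdd, nsmul_eq_mul, mul_one] at f5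
  have f6 : (k1 : ℤ) * (m + m + 1 + 1) = k1 * (1 + 1) + l + l := f5
  have f7 : (l : ℤ) = k1 * m := by linarith
  exact_mod_cast f7

/-- being a power of `b` -/
theorem isNum_iff (u : M) : (u * b = b * u ∧ ∃ y, u * y = 1) ↔ ∃ n : ℕ, u = b ^ n := by
  constructor
  · rintro ⟨h1, y, hy⟩
    obtain ⟨w, rfl⟩ := exists_ψ hy
    rw [← ψ_false, ← map_mul, ← map_mul] at h1
    obtain ⟨k, hk⟩ := comm_free false 0 w (by simpa using ψ_inj h1)
    refine ⟨k, ?_⟩
    rw [hk, map_pow, pow_zero, one_mul, ψ_false]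
  · rintro ⟨n, rfl⟩
    refine ⟨((Commute.refl b).pow_left n).eq, ?_⟩
    obtain ⟨y, hy⟩ := ψ_rinv (FreeMonoid.of false ^ n)
    exact ⟨y, by rwa [map_pow, ψ_false] at hy⟩

/-- being a power of `b B` -/
theorem isR_iff (u : M) : (u * (b * B) = (b * B) * u ∧ ∃ y, u * y = 1) ↔
    ∃ n : ℕ, u = (b * B) ^ n := by
  constructor
  · rintro ⟨h1, y, hy⟩
    obtain ⟨w, rfl⟩ := exists_ψ hy
    rw [← ψ_false, ← ψ_true, ← map_mul, ← map_mul, ← map_mul] at h1
    obtain ⟨k, hk⟩ := comm_free true 1 w (by simpa using ψ_inj h1)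
    refine ⟨k, ?_⟩
    rw [hk, map_pow, pow_one, map_mul]
    simp only [Bool.not_true, ψ_false, ψ_true]
  · rintro ⟨n, rfl⟩
    refine ⟨((Commute.refl (b * B)).pow_left n).eq, ?_⟩
    obtain ⟨y, hy⟩ := ψ_rinv ((FreeMonoid.of false * FreeMonoid.of true) ^ n)
    exact ⟨y, by rwa [map_pow, map_mul, ψ_false, ψ_true] at hy⟩

/-- **Multiplication is definable.** -/
theorem mul_iff (k m l : ℕ) :
    (∃ r : M, (r * (b * B) = (b * B) * r ∧ ∃ y, r * y = 1) ∧ R r b (b ^ k) ∧
      R r (b ^ m) (b ^ l)) ↔ k * m = l := by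
  constructor
  · rintro ⟨r, h1, h2, h3⟩
    obtain ⟨n, rfl⟩ := (isR_iff r).mp h1
    have h4 : R ((b * B) ^ n) (b ^ 1) (b ^ k) := by rwa [pow_one]
    have h5 := R_sound h4
    have h6 := R_sound h3
    rw [h5, h6, mul_one]
  · rintro rfl
    refine ⟨(b * B) ^ k, (isR_iff _).mpr ⟨k, rfl⟩, ?_, R_complete k m⟩
    have := R_complete k 1
    rwa [mul_one, pow_one] at this

end Pool.Agent.OneRel
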