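import Pool.Agent.OneRel.Mult
import Pool.Agent.MRDP.Main

/-!
# Diophantine sets are definable by finite systems over `⟨b, c ∣ b b c c = 1⟩`
-/

set_option autoImplicit false

namespace Pool.Agent.OneRel

open Sum

/-- Words with constants and variables. -/
abbrev Wd (V : Type) := List (Fin 2 ⊕ V)

/-- the generators -/
def gen (a : Fin 2) : M := π (FreeMonoid.of a)

/-- evaluation of a word -/
def ev {V : Type} (σ : V → M) (w : Wd V) : M := (w.map (Sum.elim gen σ)).prod

/-- `σ` solves the system `L` -/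
def Sat {V : Type} (σ : V → M) (L : List (Wd V × Wd V)) : Prop := ∀ e ∈ L, ev σ e.1 = ev σ e.2

section

variable {V W : Type}

@[simp] theorem ev_nil (σ : V → M) : ev σ [] = 1 := rfl

@[simp] theorem ev_cons (σ : V → M) (x : Fin 2 ⊕ V) (w : Wd V) :
    ev σ (x :: w) = Sum.elim gen σ x * ev σ w := by
  simp [ev]

@[simp] theorem gen_zero : gen 0 = b := rfl
@[simp] theorem gen_one : gen 1 = c := rfl

/-- renaming of variables in a system -/
def ren (f : V → W) (L : List (Wd V × Wd V)) : List (Wd W × Wd W) :=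
  L.map fun e => (e.1.map (Sum.map id f), e.2.map (Sum.map id f))

theorem ev_map (f : V → W) (σ : W → M) (w : Wd V) :
    ev σ (w.map (Sum.map id f)) = ev (fun x => σ (f x)) w := by
  unfold ev
  rw [List.map_map]
  congr 1
  apply List.map_congr_left
  rintro (a | x) _ <;> rfl

theorem sat_ren (f : V → W) (σ : W → M) (L : List (Wd V × Wd V)) :
    Sat σ (ren f L) ↔ Sat (fun x => σ (f x)) L := by
  unfold Sat ren
  simp only [List.mem_map, forall_exists_index, and_imp, forall_apply_eq_imp_iff₂, ev_map]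

theorem sat_append (σ : V → M) (L L' : List (Wd V × Wd V)) :
    Sat σ (L ++ L') ↔ Sat σ L ∧ Sat σ L' := by
  unfold Sat
  simp only [List.mem_append]
  constructor
  · intro h
    exact ⟨fun e he => h e (Or.inl he), fun e he => h e (Or.inr he)⟩
  · rintro ⟨h1, h2⟩ e (he | he)
    · exact h1 e he
    · exact h2 e he

@[simp] theorem sat_nil (σ : V → M) : Sat σ [] := by
  simp [Sat]

@[simp] theorem sat_cons (σ : V → M) (e : Wd V × Wd V) (L : List (Wd V × Wd V)) :
    Sat σ (e :: L) ↔ ev σ e.1 = ev σ e.2 ∧ Sat σ L := by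
  simp [Sat]

end

/-- Sets definable by a finite system with auxiliary variables. -/
def MDef {α : Type} (S : Set (α → ℕ)) : Prop :=
  ∃ (β : Type) (_ : Countable β) (L : List (Wd (α ⊕ β) × Wd (α ⊕ β))),
    ∀ v, v ∈ S ↔ ∃ τ : β → M, Sat (Sum.elim (fun a => b ^ (v a)) τ) L

section

variable {α γ : Type}

theorem MDef.ext {S S' : Set (α → ℕ)} (h : MDef S) (H : ∀ v, v ∈ S ↔ v ∈ S') : MDef S' := by
  rwa [← Set.ext H]

theorem MDef.inter {P Q : (α → ℕ) → Prop} (h1 : MDef {v | P v}) (h2 : MDef {v | Q v}) :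
    MDef {v | P v ∧ Q v} := by
  obtain ⟨β1, c1, L1, H1⟩ := h1
  obtain ⟨β2, c2, L2, H2⟩ := h2
  refine ⟨β1 ⊕ β2, inferInstance,
    ren (Sum.elim inl (inr ∘ inl)) L1 ++ ren (Sum.elim inl (inr ∘ inr)) L2, fun v => ?_⟩
  have e1 : ∀ τ : β1 ⊕ β2 → M, (fun x => Sum.elim (fun a => b ^ (v a)) τ
      (Sum.elim inl (inr ∘ inl) x)) = Sum.elim (fun a => b ^ (v a)) (fun x => τ (inl x)) := by
    intro τ
    funext x
    rcases x with a | x <;> rfl
  have e2 : ∀ τ : β1 ⊕ β2 → M, (fun x => Sum.elim (fun a => b ^ (v a)) τ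
      (Sum.elim inl (inr ∘ inr) x)) = Sum.elim (fun a => b ^ (v a)) (fun x => τ (inr x)) := by
    intro τ
    funext x
    rcases x with a | x <;> rfl
  constructor
  · rintro ⟨h1, h2⟩
    obtain ⟨τ1, s1⟩ := (H1 v).mp h1
    obtain ⟨τ2, s2⟩ := (H2 v).mp h2
    refine ⟨Sum.elim τ1 τ2, ?_⟩
    rw [sat_append, sat_ren, sat_ren, e1, e2]
    exact ⟨s1, s2⟩
  · rintro ⟨τ, s⟩
    rw [sat_append, sat_ren, sat_ren, e1, e2] at s
    exact ⟨(H1 v).mpr ⟨_, s.1⟩, (H2 v).mpr ⟨_, s.2⟩⟩

theorem MDef.reindex {S : Set (α → ℕ)} (h : MDef S) (f : α → γ) :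
    MDef {v : γ → ℕ | (fun a => v (f a)) ∈ S} := by
  obtain ⟨β, cβ, L, H⟩ := h
  refine ⟨β, cβ, ren (Sum.map f id) L, fun v => ?_⟩
  have e1 : ∀ τ : β → M, (fun x => Sum.elim (fun a => b ^ (v a)) τ (Sum.map f id x))
      = Sum.elim (fun a => b ^ (v (f a))) τ := by
    intro τ
    funext x
    rcases x with a | x <;> rfl
  refine (H _).trans ?_
  simp only [sat_ren, e1]

theorem MDef.ex {P : (α → ℕ) → ℕ → Prop}
    (h : MDef {w : Option α → ℕ | P (fun a => w (some a)) (w none)}) :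
    MDef {v : α → ℕ | ∃ x, P v x} := by
  obtain ⟨β, cβ, L, H⟩ := h
  refine ⟨β ⊕ Bool, inferInstance, ren (Sum.elim (fun o => Option.elim' (inr (inr false)) inl o)
    (inr ∘ inl)) L ++ [([inr (inr (inr false)), inl 0], [inl 0, inr (inr (inr false))]),
      ([inr (inr (inr false)), inr (inr (inr true))], [])], fun v => ?_⟩
  have e1 : ∀ (n : ℕ) (τ : β ⊕ Bool → M), τ (inr false) = b ^ n →
      (fun x => Sum.elim (fun a => b ^ (v a)) τ
      (Sum.elim (fun o => Option.elim' (inr (inr false)) inl o) (inr ∘ inl) x))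
      = Sum.elim (fun a => b ^ ((Option.elim' n v : Option α → ℕ) a)) (fun x => τ (inl x)) := by
    intro n τ hτ
    funext x
    rcases x with (_ | a) | x
    · exact hτ
    · rfl
    · rfl
  constructor
  · rintro ⟨n, hn⟩
    obtain ⟨τ, s⟩ := (H (Option.elim' n v)).mp hn
    obtain ⟨h1, y, hy⟩ := (isNum_iff (b ^ n)).mpr ⟨n, rfl⟩
    refine ⟨Sum.elim τ (fun t => cond t y (b ^ n)), ?_⟩
    rw [sat_append, sat_ren, e1 n _ rfl]
    refine ⟨s, ?_⟩
    simp only [sat_cons, ev_cons, ev_nil, Sum.elim_inl, Sum.elim_inr, gen_zero, mul_one,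
      sat_nil, and_true]
    exact ⟨h1, hy⟩
  · rintro ⟨τ, s⟩
    rw [sat_append] at s
    obtain ⟨s1, s2⟩ := s
    simp only [sat_cons, ev_cons, ev_nil, Sum.elim_inl, Sum.elim_inr, gen_zero, mul_one,
      sat_nil, and_true] at s2
    obtain ⟨n, hn⟩ := (isNum_iff _).mp ⟨s2.1, _, s2.2⟩
    rw [sat_ren, e1 n τ hn] at s1
    exact ⟨n, (H (Option.elim' n v)).mpr ⟨_, s1⟩⟩

theorem MDef.of_list {S : Set (α → ℕ)} (L : List (Wd (α ⊕ Empty) × Wd (α ⊕ Empty)))
    (h : ∀ v, v ∈ S ↔ Sat (Sum.elim (fun a => b ^ (v a)) (fun x : Empty => x.elim)) L) :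
    MDef S := by
  refine ⟨Empty, inferInstance, L, fun v => ?_⟩
  rw [h]
  constructor
  · intro s
    exact ⟨_, s⟩
  · rintro ⟨τ, s⟩
    have : τ = fun x : Empty => x.elim := by
      funext x
      exact x.elim
    rwa [this] at s

theorem mdef_eq (i j : α) : MDef {v : α → ℕ | v i = v j} := by
  refine MDef.of_list [([inr (inl i)], [inr (inl j)])] fun v => ?_
  simp only [sat_cons, ev_cons, ev_nil, Sum.elim_inl, Sum.elim_inr, mul_one, sat_nil, and_true]
  exact ⟨fun h => by rw [h], b_pow_inj⟩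

theorem mdef_add (i j k : α) : MDef {v : α → ℕ | v i + v j = v k} := by
  refine MDef.of_list [([inr (inl i), inr (inl j)], [inr (inl k)])] fun v => ?_
  simp only [sat_cons, ev_cons, ev_nil, Sum.elim_inl, Sum.elim_inr, mul_one, sat_nil, and_true,
    ← pow_add]
  exact ⟨fun h => by rw [h], b_pow_inj⟩

theorem ev_replicate {V : Type} (σ : V → M) (n : ℕ) :
    ev σ (List.replicate n (inl 0)) = b ^ n := by
  simp [ev]

theorem mdef_const (i : α) (n : ℕ) : MDef {v : α → ℕ | n = v i} := by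
  refine MDef.of_list [(List.replicate n (inl 0), [inr (inl i)])] fun v => ?_
  simp only [sat_cons, ev_cons, ev_nil, Sum.elim_inl, Sum.elim_inr, mul_one, sat_nil, and_true,
    ev_replicate]
  exact ⟨fun h => by rw [← h], b_pow_inj⟩

theorem mdef_mul (i j k : α) : MDef {v : α → ℕ | v i * v j = v k} := by
  let X : Fin 8 → Fin 2 ⊕ (α ⊕ Fin 8) := fun s => inr (inr s)
  let N : α → Fin 2 ⊕ (α ⊕ Fin 8) := fun s => inr (inl s)
  let b' : Fin 2 ⊕ (α ⊕ Fin 8) := inl 0
  let c' : Fin 2 ⊕ (α ⊕ Fin 8) := inl 1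
  refine ⟨Fin 8, inferInstance,
    [([X 0, b', b', b', c'], [b', b', b', c', X 0]), ([X 0, X 1], []),
     ([X 2, b', b', b', b', b', c'], [b', b', b', b', b', c', X 2]), ([X 2, X 3, X 4], []),
     ([X 3, X 0, N i, N i, X 4], []),
     ([X 5, N j, N j, b', b', b', c'], [N j, N j, b', b', b', c', X 5]), ([X 5, X 6, X 7], []),
     ([X 6, X 0, N k, N k, X 7], [])], fun v => ?_⟩
  refine (mul_iff (v i) (v j) (v k)).symm.trans ?_
  simp only [X, N, b', c', sat_cons, ev_cons, ev_nil, Sum.elim_inl, Sum.elim_inr, mul_one,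
    sat_nil, and_true, gen_zero, gen_one]
  constructor
  · rintro ⟨r, ⟨h1, y, hy⟩, ⟨x1, T1, y1, h2, h3, h4⟩, ⟨x2, T2, y2, h5, h6, h7⟩⟩
    simp only [B, mul_assoc] at h1 h2 h3 h4 h5 h6 h7
    exact ⟨![r, y, x1, T1, y1, x2, T2, y2], h1, hy, h2, h3, h4, h5, h6, h7⟩
  · rintro ⟨τ, h1, hy, h2, h3, h4, h5, h6, h7⟩
    refine ⟨τ 0, ⟨?_, τ 1, hy⟩, ⟨τ 2, τ 3, τ 4, ?_, ?_, ?_⟩, ⟨τ 5, τ 6, τ 7, ?_, ?_, ?_⟩⟩
    all_goals
      simp only [B, mul_assoc]
      assumption

/-- functions with definable graph -/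
def MFn (f : (α → ℕ) → ℕ) : Prop :=
  MDef {w : Option α → ℕ | f (fun a => w (some a)) = w none}

theorem mfn_proj (i : α) : MFn fun v : α → ℕ => v i := mdef_eq _ _

theorem mfn_const (n : ℕ) : MFn fun _ : α → ℕ => n := mdef_const _ _

theorem mfn_op {f g : (α → ℕ) → ℕ} (hf : MFn f) (hg : MFn g) (op : ℕ → ℕ → ℕ)
    (hop : ∀ (δ : Type) (i j k : δ), MDef {v : δ → ℕ | op (v i) (v j) = v k}) :
    MFn fun v => op (f v) (g v) := by
  have h1 := hf.reindex (γ := Option (Option (Option α)))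
    (fun o => Option.elim' (some none) (fun a => some (some (some a))) o)
  have h2 := hg.reindex (γ := Option (Option (Option α)))
    (fun o => Option.elim' none (fun a => some (some (some a))) o)
  have h3 := hop (Option (Option (Option α))) (some none) none (some (some none))
  have h4 := MDef.ex (P := fun (w : Option (Option α) → ℕ) y =>
      f (fun a => w (some (some a))) = w none ∧ g (fun a => w (some (some a))) = y ∧
      op (w none) y = w (some none)) (MDef.inter h1 (MDef.inter h2 h3))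
  have h5 := MDef.ex (P := fun (w : Option α → ℕ) x => ∃ y,
      f (fun a => w (some a)) = x ∧ g (fun a => w (some a)) = y ∧
      op x y = w none) h4
  refine h5.ext fun w => ?_
  constructor
  · rintro ⟨x, y, hx, hy, hxy⟩
    show op (f _) (g _) = _
    rw [hx, hy, hxy]
  · intro h
    exact ⟨_, _, rfl, rfl, h⟩

theorem mfn_add {f g : (α → ℕ) → ℕ} (hf : MFn f) (hg : MFn g) : MFn fun v => f v + g v :=
  mfn_op hf hg (· + ·) fun _ i j k => mdef_add i j k

theorem mfn_mul {f g : (α → ℕ) → ℕ} (hf : MFn f) (hg : MFn g) : MFn fun v => f v * g v :=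
  mfn_op hf hg (· * ·) fun _ i j k => mdef_mul i j k

theorem poly_parts {f : (α → ℕ) → ℤ} (hf : IsPoly f) :
    ∃ p q : (α → ℕ) → ℕ, MFn p ∧ MFn q ∧ ∀ v, f v = p v - q v := by
  induction hf with
  | proj i => exact ⟨_, _, mfn_proj i, mfn_const 0, fun v => by simp⟩
  | const n =>
    refine ⟨_, _, mfn_const n.toNat, mfn_const (-n).toNat, fun v => ?_⟩
    beta_reduce
    omega
  | sub _ _ ihf ihg =>
    obtain ⟨p1, q1, a1, b1, h1⟩ := ihf
    obtain ⟨p2, q2, a2, b2, h2⟩ := ihg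
    refine ⟨_, _, mfn_add a1 b2, mfn_add a2 b1, fun v => ?_⟩
    beta_reduce
    rw [h1, h2]
    push_cast
    ring
  | mul _ _ ihf ihg =>
    obtain ⟨p1, q1, a1, b1, h1⟩ := ihf
    obtain ⟨p2, q2, a2, b2, h2⟩ := ihg
    refine ⟨_, _, mfn_add (mfn_mul a1 a2) (mfn_mul b1 b2),
      mfn_add (mfn_mul a1 b2) (mfn_mul b1 a2), fun v => ?_⟩
    beta_reduce
    rw [h1, h2]
    push_cast
    ring

theorem mdef_poly {f : (α → ℕ) → ℤ} (hf : IsPoly f) : MDef {v | f v = 0} := by
  obtain ⟨p, q, hp, hq, h⟩ := poly_parts hf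
  refine (MDef.ex (P := fun v x => p v = x ∧ q v = x) (MDef.inter hp hq)).ext fun v => ?_
  constructor
  · rintro ⟨x, h1, h2⟩
    show f v = 0
    rw [h, h1, h2, sub_self]
  · intro h0
    have h1 : f v = 0 := h0
    rw [h] at h1
    exact ⟨p v, rfl, by omega⟩

end

/-- From a Diophantine set to finitely many variables. -/
theorem dioph_finite {S : Set (Unit → ℕ)} (h : Dioph S) :
    ∃ (I : Type) (_ : Fintype I) (T : Set (Option I → ℕ)), MDef T ∧
      ∀ v, v ∈ S ↔ ∃ x : Option I → ℕ, x none = v () ∧ x ∈ T := by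
  classical
  obtain ⟨β, p, hp⟩ := h
  obtain ⟨J, _, _, hc, _⟩ := MRDP.isPoly_data p.isPoly
  let ρ : Unit ⊕ β → Option J := fun s => match s with
    | inl _ => none
    | inr j => if h : inr j ∈ J then some ⟨inr j, h⟩ else none
  refine ⟨J, inferInstance, {x | p (fun s => x (ρ s)) = 0}, mdef_poly (p.map ρ).isPoly, fun v => ?_⟩
  rw [hp]
  constructor
  · rintro ⟨t, ht⟩
    refine ⟨fun o => match o with
      | none => v ()
      | some ⟨inl _, _⟩ => 0
      | some ⟨inr j, _⟩ => t j, rfl, ?_⟩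
    show p _ = 0
    rw [← ht]
    have := hc 0 (fun s => (fun o : Option J => match o with
      | none => v ()
      | some ⟨inl _, _⟩ => 0
      | some ⟨inr j, _⟩ => t j) (ρ s)) (Sum.elim v t) (by
        rintro (u | j) hj
        · rfl
        · simp only [ρ, hj, dif_pos]
          rfl)
    exact Int.modEq_zero_iff.mp this
  · rintro ⟨x, hx, hT⟩
    refine ⟨fun j => x (ρ (inr j)), ?_⟩
    have hT' : p (fun s => x (ρ s)) = 0 := hT
    rw [← hT']
    congr 1
    funext s
    rcases s with u | j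
    · exact hx.symm
    · rfl

/-- **Reduction.** -/
theorem reduction {S : Set (Unit → ℕ)} (h : Dioph S) :
    ∃ (L : List (Wd ℕ × Wd ℕ)) (i₀ : ℕ), ∀ k : ℕ, (fun _ => k) ∈ S ↔
      ∃ σ : ℕ → M, Sat σ (L ++ [([inr i₀], List.replicate k (inl 0))]) := by
  classical
  obtain ⟨I, fI, T, ⟨β, cβ, L, hL⟩, hT⟩ := dioph_finite h
  obtain ⟨ι, hι⟩ := exists_injective_nat ((Option I ⊕ β) ⊕ Option I)
  refine ⟨ren (ι ∘ inl) L ++ (Finset.univ : Finset (Option I)).toList.flatMap
    (fun i => [([inr (ι (inl (inl i))), inl 0], [inl 0, inr (ι (inl (inl i)))]),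
      ([inr (ι (inl (inl i))), inr (ι (inr i))], [])]), ι (inl (inl none)), fun k => ?_⟩
  rw [hT]
  have key : ∀ (σ : ℕ → M), Sat σ ((Finset.univ : Finset (Option I)).toList.flatMap
    (fun i => [([inr (ι (inl (inl i))), inl 0], [inl 0, inr (ι (inl (inl i)))]),
      ([inr (ι (inl (inl i))), inr (ι (inr i))], [])])) ↔ ∀ i,
        σ (ι (inl (inl i))) * b = b * σ (ι (inl (inl i))) ∧
        σ (ι (inl (inl i))) * σ (ι (inr i)) = 1 := by
    intro σ
    unfold Sat
    simp only [List.mem_flatMap, Finset.mem_toList, Finset.mem_univ, true_and]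
    constructor
    · intro h i
      have h1 := h _ ⟨i, List.mem_cons_self⟩
      have h2 := h _ ⟨i, List.mem_cons_of_mem _ List.mem_cons_self⟩
      simp only [ev_cons, ev_nil, Sum.elim_inl, Sum.elim_inr, mul_one, gen_zero] at h1 h2
      exact ⟨h1, h2⟩
    · rintro h e ⟨i, hi⟩
      simp only [List.mem_cons, List.not_mem_nil, or_false] at hi
      rcases hi with rfl | rfl
      · simpa using (h i).1
      · simpa using (h i).2
  constructor
  · rintro ⟨x, hx0, hx⟩
    obtain ⟨τ, hτ⟩ := (hL x).mp hx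
    have hy : ∀ i, ∃ y, b ^ (x i) * y = 1 := fun i => ((isNum_iff _).mpr ⟨x i, rfl⟩).2
    choose y hy using hy
    let F : (Option I ⊕ β) ⊕ Option I → M :=
      Sum.elim (Sum.elim (fun a => b ^ (x a)) τ) y
    have hF : ∀ s, Function.extend ι F 1 (ι s) = F s := fun s => hι.extend_apply F 1 s
    refine ⟨Function.extend ι F 1, ?_⟩
    rw [sat_append, sat_append, sat_ren, key]
    refine ⟨⟨?_, ?_⟩, ?_⟩
    · simp only [Function.comp, hF]
      exact hτ
    · intro i
      rw [hF, hF]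
      exact ⟨((Commute.refl b).pow_left _).eq, hy i⟩
    · simp only [sat_cons, ev_cons, ev_nil, Sum.elim_inr, mul_one, sat_nil, and_true,
        ev_replicate, hF]
      rw [← hx0]
      rfl
  · rintro ⟨σ, hσ⟩
    rw [sat_append, sat_append, sat_ren, key] at hσ
    obtain ⟨⟨s1, s2⟩, s3⟩ := hσ
    have hx : ∀ i, ∃ n, σ (ι (inl (inl i))) = b ^ n := fun i =>
      (isNum_iff _).mp ⟨(s2 i).1, _, (s2 i).2⟩
    choose x hx using hx
    refine ⟨x, ?_, (hL x).mpr ⟨fun j => σ (ι (inl (inr j))), ?_⟩⟩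
    · simp only [sat_cons, ev_cons, ev_nil, Sum.elim_inr, mul_one, sat_nil, and_true,
        ev_replicate] at s3
      rw [hx] at s3
      exact b_pow_inj s3
    · have e : (fun s => σ ((ι ∘ inl) s)) = Sum.elim (fun a => b ^ (x a))
          (fun j => σ (ι (inl (inr j)))) := by
        funext s
        rcases s with i | j
        · exact hx i
        · rfl
      rwa [e] at s1

end Pool.Agent.OneRel
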